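import Pool.Agent.helper76.FV.Defs2

/-! # FV, module BA: an explicit family of paired vectors -/

namespace Pool.Agent.helper76.FV

open Finset

/-- (helper) a paired matrix structure on the index set `S` with `d` parameters -/
def BStr {k s : ℕ} (π : Fin k → Fin s) (S : Finset (Fin k)) (d : ℕ) : Prop :=
  ∃ (D : Type) (_ : Fintype D) (_ : DecidableEq D), Fintype.card D = d ∧
    ∃ (A : Fin k → D → ℤ) (σ : Fin k → Fin k) (τ : D → Fin k),
      (∀ i ∈ S, σ i ∈ S ∧ σ i ≠ i ∧ σ (σ i) = i ∧ (∀ l, A (σ i) l = - A i l)) ∧
      (∀ i l, A i l = 0 ∨ A i l = 1 ∨ A i l = -1) ∧ (∀ i ∈ S, A i ≠ 0) ∧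
      (∀ i, i ∉ S → A i = 0) ∧
      (∀ j l, ∑ i ∈ S.filter (fun i => π i = j), A i l = 0) ∧
      (∀ l, τ l ∈ S) ∧
      (∀ l l', A (τ l) l' = if l = l' then 1 else 0)

theorem BStr.empty {k s : ℕ} (π : Fin k → Fin s) : BStr π ∅ 0 := by
  refine ⟨Empty, inferInstance, inferInstance, by simp, fun _ _ => 0, id, fun l => l.elim, ?_⟩
  simp
  intro i
  rfl

theorem BStr.glue {k s : ℕ} {π : Fin k → Fin s} {S T : Finset (Fin k)} {d d' : ℕ}
    (h : BStr π S d) (h' : BStr π T d') (hST : Disjoint S T) : BStr π (S ∪ T) (d + d') := by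
  obtain ⟨D, iD, eD, hD, A, σ, τ, h1, h2, h3, h4, h5, h6, h7⟩ := h
  obtain ⟨D', iD', eD', hD', A', σ', τ', h1', h2', h3', h4', h5', h6', h7'⟩ := h'
  have hnT : ∀ i ∈ S, i ∉ T := fun i hi hi' => (Finset.disjoint_left.1 hST) hi hi'
  have hnS : ∀ i ∈ T, i ∉ S := fun i hi hi' => (Finset.disjoint_left.1 hST) hi' hi
  refine ⟨D ⊕ D', inferInstance, inferInstance, by simp [hD, hD'],
    fun i => Sum.elim (A i) (A' i), fun i => if i ∈ S then σ i else σ' i, Sum.elim τ τ',
    ?_, ?_, ?_, ?_, ?_, ?_, ?_⟩
  · intro i hi
    by_cases hS : i ∈ S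
    · obtain ⟨a1, a2, a3, a4⟩ := h1 i hS
      simp only [hS, if_true]
      refine ⟨by simp [a1], a2, by simp [a1, a3], ?_⟩
      rintro (l | l)
      · simpa using a4 l
      · simp [h4' _ (hnT _ a1), h4' _ (hnT _ hS)]
    · have hT : i ∈ T := by
        rcases Finset.mem_union.1 hi with h | h
        · exact absurd h hS
        · exact h
      obtain ⟨a1, a2, a3, a4⟩ := h1' i hT
      have := hnS _ a1
      simp only [hS, if_false]
      refine ⟨by simp [a1], a2, by simp [this, a3], ?_⟩
      rintro (l | l)
      · simp [h4 _ this, h4 _ hS]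
      · simpa using a4 l
  · rintro i (l | l)
    · simpa using h2 i l
    · simpa using h2' i l
  · intro i hi h0
    rcases Finset.mem_union.1 hi with h | h
    · apply h3 i h
      funext l
      simpa using congrFun h0 (Sum.inl l)
    · apply h3' i h
      funext l
      simpa using congrFun h0 (Sum.inr l)
  · intro i hi
    rw [Finset.mem_union, not_or] at hi
    funext l
    rcases l with l | l
    · simp [h4 i hi.1]
    · simp [h4' i hi.2]
  · intro j l
    rw [Finset.filter_union, Finset.sum_union (Finset.disjoint_filter_filter hST)]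
    rcases l with l | l
    · simp only [Sum.elim_inl]
      rw [h5 j l, zero_add]
      apply Finset.sum_eq_zero
      intro i hi
      rw [h4 i (hnS _ (Finset.mem_filter.1 hi).1)]
      rfl
    · simp only [Sum.elim_inr]
      rw [h5' j l, add_zero]
      apply Finset.sum_eq_zero
      intro i hi
      rw [h4' i (hnT _ (Finset.mem_filter.1 hi).1)]
      rfl
  · rintro (l | l)
    · simp [h6 l]
    · simp [h6' l]
  · rintro (l | l) (l' | l')
    · simpa using h7 l l'
    · simp [h4' _ (hnT _ (h6 l))]
    · simp [h4 _ (hnS _ (h6' l))]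
    · simpa using h7' l l'

/-- structure from an injective map of a small model -/
theorem BStr.of_inj {k s : ℕ} (π : Fin k → Fin s) (J : Type) [Fintype J] [DecidableEq J]
    (f : J ↪ Fin k) (D : Type) [Fintype D] [DecidableEq D] (B : J → D → ℤ) (g : J → J) (t : D → J)
    (h1 : ∀ x, g x ≠ x ∧ g (g x) = x ∧ ∀ l, B (g x) l = - B x l)
    (h2 : ∀ x l, B x l = 0 ∨ B x l = 1 ∨ B x l = -1) (h3 : ∀ x, B x ≠ 0)
    (h5 : ∀ j l, ∑ x ∈ univ.filter (fun x => π (f x) = j), B x l = 0)
    (h7 : ∀ l l', B (t l) l' = if l = l' then 1 else 0) :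
    BStr π (univ.map f) (Fintype.card D) := by
  have hA : ∀ x, Function.extend f B 0 (f x) = B x := fun x => f.injective.extend_apply _ _ _
  have hs : ∀ x, Function.extend f (fun x => f (g x)) id (f x) = f (g x) :=
    fun x => f.injective.extend_apply _ _ _
  refine ⟨D, inferInstance, inferInstance, rfl, Function.extend f B 0,
    Function.extend f (fun x => f (g x)) id, fun l => f (t l), ?_, ?_, ?_, ?_, ?_, ?_, ?_⟩
  · intro i hi
    obtain ⟨x, -, rfl⟩ := Finset.mem_map.1 hi
    obtain ⟨a1, a2, a3⟩ := h1 x
    rw [hs, hs, a2, hA, hA]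
    exact ⟨by simp, fun h => a1 (f.injective h), rfl, a3⟩
  · intro i l
    by_cases hi : ∃ x, f x = i
    · obtain ⟨x, rfl⟩ := hi
      rw [hA]; exact h2 x l
    · rw [Function.extend_apply' _ _ _ hi]; simp
  · intro i hi
    obtain ⟨x, -, rfl⟩ := Finset.mem_map.1 hi
    rw [hA]; exact h3 x
  · intro i hi
    rw [Function.extend_apply']
    · rfl
    · rintro ⟨x, rfl⟩; exact hi (by simp)
  · intro j l
    rw [Finset.filter_map, Finset.sum_map]
    rw [← h5 j l]
    apply Finset.sum_congr
    · ext x; simp
    · intro x _; rw [hA]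
  · intro l; simp
  · intro l l'; rw [hA]; exact h7 l l'

theorem BStr.pair {k s : ℕ} (π : Fin k → Fin s) {a b : Fin k} (hab : a ≠ b) (h : π a = π b) :
    BStr π {a, b} 1 := by
  have := BStr.of_inj π Bool ⟨fun c => if c then a else b, by
      intro x y; cases x <;> cases y <;> simp [hab, hab.symm]⟩ Unit
    (fun c _ => if c then 1 else -1) (fun c => !c) (fun _ => true)
    (by intro x; cases x <;> simp) (by intro x; cases x <;> simp)
    (by
      intro x h0
      have := congrFun h0 ()
      cases x <;> simp at this)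
    (by
      intro j l
      by_cases hj : π a = j
      · have hj' : π b = j := by rw [← h, hj]
        rw [Finset.filter_true_of_mem]
        · simp
        · intro x _; cases x <;> simp [hj, hj']
      · have hj' : ¬ π b = j := by rw [← h]; exact hj
        rw [Finset.filter_false_of_mem]
        · simp
        · intro x _; cases x <;> simp [hj, hj'])
    (by intro l l'; simp)
  simpa [Finset.map_eq_image] using this

/-- the model for two blocks of three elements -/
def sixB : Bool × Fin 3 → Bool → ℤ := fun x l =>
  (if x.1 then 1 else -1) * (if x.2 = 2 then -1 else if x.2 = 1 then (if l then 1 else 0)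
    else (if l then 0 else 1))

theorem BStr.six {k s : ℕ} (π : Fin k → Fin s) (f : Bool × Fin 3 ↪ Fin k)
    (h : ∀ b c c', π (f (b, c)) = π (f (b, c'))) :
    BStr π (univ.map f) 2 := by
  have := BStr.of_inj π (Bool × Fin 3) f Bool sixB (fun x => (!x.1, x.2))
    (fun l => (true, if l then 1 else 0))
    (by decide) (by decide)
    (by
      intro x h0
      have h1 := congrFun h0 true
      have h2 := congrFun h0 false
      revert h1 h2; revert x; decide)
    (by
      intro j l
      have e1 : univ.filter (fun x : Bool × Fin 3 => π (f x) = j) =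
          (univ.filter (fun b : Bool => π (f (b, 0)) = j)) ×ˢ (univ : Finset (Fin 3)) := by
        ext ⟨b, c⟩
        simp [h b c 0]
      rw [e1, Finset.sum_product]
      have key : ∀ (b : Bool) (l : Bool), ∑ y : Fin 3, sixB (b, y) l = 0 := by decide
      exact Finset.sum_eq_zero (fun b _ => key b l))
    (by decide)
  simpa using this

/-- number of elements of `S` in the block `j` -/
def bsz {k s : ℕ} (π : Fin k → Fin s) (S : Finset (Fin k)) (j : Fin s) : ℕ :=
  (S.filter (fun i => π i = j)).card

theorem bstr_all {k s : ℕ} (π : Fin k → Fin s) : ∀ (N : ℕ) (S : Finset (Fin k)), S.card = N →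
    (∀ j, bsz π S j ≠ 1) → Even (univ.filter (fun j => Odd (bsz π S j))).card →
    ∃ d, 2 * d + (univ.filter (fun j => Odd (bsz π S j))).card = S.card ∧ BStr π S d := by
  intro N
  induction N using Nat.strong_induction_on with
  | _ N ih =>
  intro S hN h1 h2
  by_cases hne : S = ∅
  · subst hne
    refine ⟨0, ?_, BStr.empty π⟩
    simp [bsz]
  by_cases hbig : ∃ j, bsz π S j ≠ 0 ∧ bsz π S j ≠ 3
  · -- remove a pair
    obtain ⟨j, hj0, hj3⟩ := hbig
    have hj1 := h1 j
    have hj2 : 1 < (S.filter (fun i => π i = j)).card := by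
      unfold bsz at *; omega
    obtain ⟨a, ha, b, hb, hab⟩ := Finset.one_lt_card.1 hj2
    rw [Finset.mem_filter] at ha hb
    have hsub : ({a, b} : Finset (Fin k)) ⊆ S := by
      intro x hx; simp at hx; rcases hx with rfl | rfl
      · exact ha.1
      · exact hb.1
    have hcard2 : ({a, b} : Finset (Fin k)).card = 2 := Finset.card_pair hab
    have hcS : (S \ {a, b}).card + 2 = S.card := by
      have := Finset.card_sdiff_add_card_eq_card hsub
      omega
    have hbs : ∀ j', bsz π (S \ {a, b}) j' + (if j' = j then 2 else 0) = bsz π S j' := by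
      intro j'
      unfold bsz
      have e1 : (S.filter (fun i => π i = j')) =
          ((S \ {a, b}).filter (fun i => π i = j')) ∪ (({a, b} : Finset (Fin k)).filter (fun i => π i = j')) := by
        rw [← Finset.filter_union, Finset.sdiff_union_of_subset hsub]
      rw [e1, Finset.card_union_of_disjoint (Finset.disjoint_filter_filter Finset.sdiff_disjoint)]
      congr 1
      by_cases hjj : j' = j
      · rw [if_pos hjj, Finset.filter_true_of_mem, hcard2]
        intro x hx; simp at hx; rcases hx with rfl | rfl
        · rw [ha.2, hjj]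
        · rw [hb.2, hjj]
      · rw [if_neg hjj, Finset.filter_false_of_mem, Finset.card_empty]
        intro x hx; simp at hx; rcases hx with rfl | rfl
        · rw [ha.2]; exact fun h => hjj h.symm
        · rw [hb.2]; exact fun h => hjj h.symm
    have hodd : (univ.filter (fun j' => Odd (bsz π (S \ {a, b}) j'))) =
        (univ.filter (fun j' => Odd (bsz π S j'))) := by
      apply Finset.filter_congr
      intro j' _
      rw [← hbs j']
      by_cases hjj : j' = j
      · simp [hjj, Nat.odd_add]
      · simp [hjj]
    obtain ⟨d, hd, hst⟩ := ih (S \ {a, b}).card (by omega) (S \ {a, b}) rfl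
      (by
        intro j' h
        have h3 := hbs j'
        by_cases hjj : j' = j
        · rw [if_pos hjj, h, hjj] at h3
          omega
        · rw [if_neg hjj, h] at h3
          exact h1 j' (by omega))
      (by rw [hodd]; exact h2)
    refine ⟨d + 1, ?_, ?_⟩
    · rw [hodd] at hd; omega
    · have := hst.glue (BStr.pair π hab (by rw [ha.2, hb.2])) Finset.sdiff_disjoint
      rwa [Finset.sdiff_union_of_subset hsub] at this
  · -- all blocks have 0 or 3 elements
    have h03 : ∀ j, bsz π S j ≠ 0 → bsz π S j = 3 := fun j hj => by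
      by_contra h3
      exact hbig ⟨j, hj, h3⟩
    obtain ⟨a, ha⟩ := Finset.nonempty_iff_ne_empty.2 hne
    have hapos : bsz π S (π a) ≠ 0 := by
      unfold bsz
      rw [Finset.card_ne_zero]
      exact ⟨a, by simp [ha]⟩
    have ha3 := h03 _ hapos
    have hamem : π a ∈ univ.filter (fun j => Odd (bsz π S j)) := by
      simp only [Finset.mem_filter, Finset.mem_univ, true_and, ha3]; decide
    have hone : 1 < (univ.filter (fun j => Odd (bsz π S j))).card := by
      have hpos : 0 < (univ.filter (fun j => Odd (bsz π S j))).card :=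
        Finset.card_pos.2 ⟨_, hamem⟩
      rcases h2 with ⟨c, hc⟩
      omega
    obtain ⟨j, hj, j', hj', hjj⟩ := Finset.one_lt_card.1 hone
    simp only [Finset.mem_filter, Finset.mem_univ, true_and] at hj hj'
    have hj3 : bsz π S j = 3 := h03 j (by rintro h; rw [h] at hj; revert hj; decide)
    have hj3' : bsz π S j' = 3 := h03 j' (by rintro h; rw [h] at hj'; revert hj'; decide)
    -- enumerations
    let e1 : Fin 3 ≃ (S.filter (fun i => π i = j)) :=
      (Finset.equivFinOfCardEq hj3).symm
    let e2 : Fin 3 ≃ (S.filter (fun i => π i = j')) :=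
      (Finset.equivFinOfCardEq hj3').symm
    have p1 : ∀ c, (e1 c : Fin k) ∈ S ∧ π (e1 c) = j := fun c => Finset.mem_filter.1 (e1 c).2
    have p2 : ∀ c, (e2 c : Fin k) ∈ S ∧ π (e2 c) = j' := fun c => Finset.mem_filter.1 (e2 c).2
    let f : Bool × Fin 3 ↪ Fin k := ⟨fun x => if x.1 then (e1 x.2 : Fin k) else (e2 x.2 : Fin k), by
      rintro ⟨b, c⟩ ⟨b', c'⟩ h
      cases b <;> cases b' <;> simp at h
      · rw [h]
      · exfalso
        apply hjj
        rw [← (p1 c').2, ← (p2 c).2, h]
      · exfalso
        apply hjj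
        rw [← (p1 c).2, ← (p2 c').2, h]
      · rw [h]⟩
    have hf : ∀ b c, f (b, c) = if b then (e1 c : Fin k) else (e2 c : Fin k) := fun b c => rfl
    have hfπ : ∀ b c, π (f (b, c)) = if b then j else j' := by
      intro b c
      cases b
      · simp [hf, (p2 c).2]
      · simp [hf, (p1 c).2]
    have hsub : univ.map f ⊆ S := by
      intro x hx
      obtain ⟨⟨b, c⟩, -, rfl⟩ := Finset.mem_map.1 hx
      cases b
      · simp [hf, (p2 c).1]
      · simp [hf, (p1 c).1]
    have hcard6 : (univ.map f).card = 6 := by simp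
    have hcS : (S \ univ.map f).card + 6 = S.card := by
      have := Finset.card_sdiff_add_card_eq_card hsub
      omega
    have hbs : ∀ i, bsz π (S \ univ.map f) i + (if i = j ∨ i = j' then 3 else 0) = bsz π S i := by
      intro i
      unfold bsz
      have e1 : (S.filter (fun x => π x = i)) =
          ((S \ univ.map f).filter (fun x => π x = i)) ∪ ((univ.map f).filter (fun x => π x = i)) := by
        rw [← Finset.filter_union, Finset.sdiff_union_of_subset hsub]
      rw [e1, Finset.card_union_of_disjoint (Finset.disjoint_filter_filter Finset.sdiff_disjoint)]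
      congr 1
      rw [Finset.filter_map, Finset.card_map]
      have e2 : univ.filter ((fun x => π x = i) ∘ f) =
          (univ.filter (fun b : Bool => (if b then j else j') = i)) ×ˢ (univ : Finset (Fin 3)) := by
        ext ⟨b, c⟩
        simp [hfπ]
      rw [e2, Finset.card_product]
      by_cases hi : i = j
      · have : univ.filter (fun b : Bool => (if b then j else j') = i) = {true} := by
          ext b; cases b <;> simp [hi, Ne.symm hjj]
        rw [this]; simp [hi]
      · by_cases hi' : i = j'
        · have : univ.filter (fun b : Bool => (if b then j else j') = i) = {false} := by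
            ext b; cases b <;> simp [hi', hjj]
          rw [this]; simp [hi']
        · have : univ.filter (fun b : Bool => (if b then j else j') = i) = ∅ := by
            ext b; cases b <;> simp [Ne.symm hi, Ne.symm hi']
          rw [this]; simp [hi, hi']
    have hz : bsz π (S \ univ.map f) j = 0 := by have := hbs j; simp at this; omega
    have hz' : bsz π (S \ univ.map f) j' = 0 := by have := hbs j'; simp at this; omega
    have hodd : (univ.filter (fun i => Odd (bsz π S i))) =
        insert j (insert j' (univ.filter (fun i => Odd (bsz π (S \ univ.map f) i)))) := by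
      ext i
      simp only [Finset.mem_filter, Finset.mem_univ, true_and, Finset.mem_insert]
      by_cases hi : i = j
      · simp [hi, hj]
      · by_cases hi' : i = j'
        · simp [hi', hj']
        · have := hbs i
          simp [hi, hi'] at this
          simp [hi, hi', this]
    have hoc : (univ.filter (fun i => Odd (bsz π S i))).card =
        (univ.filter (fun i => Odd (bsz π (S \ univ.map f) i))).card + 2 := by
      rw [hodd, Finset.card_insert_of_notMem, Finset.card_insert_of_notMem]
      · simp [hz']
      · simp [hz, hjj]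
    obtain ⟨d, hd, hst⟩ := ih (S \ univ.map f).card (by omega) (S \ univ.map f) rfl
      (by
        intro i h
        have h3 := hbs i
        by_cases hi : i = j ∨ i = j'
        · rcases hi with rfl | rfl
          · omega
          · omega
        · rw [if_neg hi, h] at h3
          exact h1 i (by omega))
      (by
        rw [hoc] at h2
        rcases h2 with ⟨c, hc⟩
        exact ⟨c - 1, by omega⟩)
    refine ⟨d + 2, ?_, ?_⟩
    · rw [hoc]; omega
    · have := hst.glue (BStr.six π f (by intro b c c'; rw [hfπ, hfπ])) Finset.sdiff_disjoint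
      rwa [Finset.sdiff_union_of_subset hsub] at this

theorem block_matrix {k s : ℕ} (π : Fin k → Fin s) (h1 : ∀ j, bsize π j ≠ 1)
    (h2 : Even (oddBlocks π)) :
    ∃ d : ℕ, 2 * d + oddBlocks π = k ∧ ∃ A : Fin k → Fin d → ℤ, ∃ σ : Equiv.Perm (Fin k),
      ∃ τ : Fin d → Fin k,
      (∀ i, σ i ≠ i) ∧ (∀ i, σ (σ i) = i) ∧ (∀ i l, A (σ i) l = - A i l) ∧
      (∀ i l, A i l = 0 ∨ A i l = 1 ∨ A i l = -1) ∧ (∀ i, A i ≠ 0) ∧
      (∀ j l, ∑ i ∈ univ.filter (fun i => π i = j), A i l = 0) ∧
      (∀ l l', A (τ l) l' = if l = l' then 1 else 0) := by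
  obtain ⟨d, hd, D, iD, eD, hD, A, σ, τ, g1, g2, g3, g4, g5, g6, g7⟩ :=
    bstr_all π (univ : Finset (Fin k)).card univ rfl h1 h2
  have hd' : 2 * d + oddBlocks π = k := by
    have : (univ : Finset (Fin k)).card = k := by simp
    rw [this] at hd
    exact hd
  let ε : D ≃ Fin d := Fintype.equivFinOfCardEq hD
  refine ⟨d, hd', fun i l => A i (ε.symm l),
    ⟨σ, σ, fun i => (g1 i (by simp)).2.2.1, fun i => (g1 i (by simp)).2.2.1⟩,
    fun l => τ (ε.symm l), fun i => (g1 i (by simp)).2.1, fun i => (g1 i (by simp)).2.2.1,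
    fun i l => (g1 i (by simp)).2.2.2 _, fun i l => g2 i _, ?_, fun j l => g5 j _, ?_⟩
  · intro i h0
    apply g3 i (by simp)
    funext l
    simpa using congrFun h0 (ε l)
  · intro l l'
    show A (τ (ε.symm l)) (ε.symm l') = _
    rw [g7]
    simp

end Pool.Agent.helper76.FV
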