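import Pool.Agent.helper31.FV.BA

/-! # FV, module BL: lower bound for the number of paired vectors with vanishing block sums -/

namespace Pool.Agent.helper76.FV

open Finset

theorem paired_lower {k s : ℕ} (π : Fin k → Fin s) (h1 : ∀ j, bsize π j ≠ 1)
    (h2 : Even (oddBlocks π)) (d : ℕ) (hd : 2 * d + oddBlocks π = k) :
    ∀ m : ℕ, 0 < m → m ^ (d + 1) ≤
      m * Set.ncard {a : Fin k → ZMod m | (∀ i, a i ≠ 0) ∧ BlockZero π a ∧ Paired a} + k * m ^ d := by
  intro m hm
  have : NeZero m := ⟨hm.ne'⟩
  obtain ⟨d', hd', A, σ, τ, g1, g2, g3, g4, g5, g6, g7⟩ := block_matrix π h1 h2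
  have hdd : d' = d := by omega
  subst hdd
  classical
  -- the parametrisation
  let F : (Fin d' → ZMod m) → (Fin k → ZMod m) := fun u i => ∑ l, (A i l : ZMod m) * u l
  have hinj : Function.Injective F := by
    intro u v huv
    funext l
    have e1 : ∀ w : Fin d' → ZMod m, F w (τ l) = w l := by
      intro w
      simp only [F, g7]
      rw [Finset.sum_eq_single l]
      · simp
      · intro b _ hb; simp [Ne.symm hb]
      · simp
    rw [← e1 u, ← e1 v, huv]
  let bad : Fin k → Finset (Fin d' → ZMod m) := fun i => univ.filter (fun u => F u i = 0)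
  have hbad : ∀ i, (bad i).card * m ≤ m ^ d' := by
    intro i
    obtain ⟨l0, hl0⟩ : ∃ l0, A i l0 ≠ 0 := by
      by_contra h
      push Not at h
      exact g5 i (funext h)
    have hu : A i l0 = 1 ∨ A i l0 = -1 := by
      rcases g4 i l0 with h | h
      · exact absurd h hl0
      · exact h
    have hFadd : ∀ (u : Fin d' → ZMod m) (t : ZMod m),
        F (u + Pi.single l0 t) i = F u i + (A i l0 : ZMod m) * t := by
      intro u t
      simp only [F, Pi.add_apply, mul_add, Finset.sum_add_distrib]
      congr 1
      rw [Finset.sum_eq_single l0]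
      · simp
      · intro b _ hb; simp [Pi.single_eq_of_ne hb]
      · simp
    have hc : ((bad i) ×ˢ (univ : Finset (ZMod m))).card ≤ (univ : Finset (Fin d' → ZMod m)).card := by
      apply Finset.card_le_card_of_injOn (fun p => p.1 + Pi.single l0 p.2) (by simp)
      rintro ⟨u, t⟩ hp ⟨u', t'⟩ hp' h
      simp only [Finset.coe_product, Set.mem_prod, Finset.mem_coe, bad, Finset.mem_filter,
        Finset.mem_univ, true_and, and_true] at hp hp'
      have h' : u + Pi.single l0 t = u' + Pi.single l0 t' := h
      have e1 := hFadd u t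
      have e2 := hFadd u' t'
      rw [h', e2, hp, hp', zero_add, zero_add] at e1
      have ht : t = t' := by
        rcases hu with hu | hu <;> rw [hu] at e1
        · simpa using e1.symm
        · simpa using e1.symm
      subst ht
      simp at h'
      rw [h']
    rw [Finset.card_product] at hc
    simpa [ZMod.card] using hc
  -- good parameters
  let good : Finset (Fin d' → ZMod m) := univ \ (univ.biUnion bad)
  have hgood : m ^ d' ≤ good.card + ∑ i, (bad i).card := by
    have e1 : (univ : Finset (Fin d' → ZMod m)).card ≤ good.card + (univ.biUnion bad).card := by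
      have := Finset.card_sdiff_add_card (univ : Finset (Fin d' → ZMod m)) (univ.biUnion bad)
      have h2 := Finset.card_le_card (Finset.subset_union_left
        (s₁ := (univ : Finset (Fin d' → ZMod m))) (s₂ := univ.biUnion bad))
      have h3 : good.card = (univ \ univ.biUnion bad : Finset (Fin d' → ZMod m)).card := rfl
      rw [h3]
      linarith
    have e2 : (univ.biUnion bad).card ≤ ∑ i, (bad i).card := Finset.card_biUnion_le
    have e3 : (univ : Finset (Fin d' → ZMod m)).card = m ^ d' := by simp [ZMod.card]
    omega
  have himg : good.card ≤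
      Set.ncard {a : Fin k → ZMod m | (∀ i, a i ≠ 0) ∧ BlockZero π a ∧ Paired a} := by
    rw [← Set.ncard_coe_finset, ← Set.ncard_image_of_injective _ hinj]
    apply Set.ncard_le_ncard _ (Set.toFinite _)
    rintro a ⟨u, hu, rfl⟩
    have hu' : ∀ i, F u i ≠ 0 := by
      intro i h0
      simp only [good, Finset.coe_sdiff, Set.mem_sdiff, Finset.mem_coe, Finset.mem_univ,
        true_and, Finset.mem_biUnion, bad, Finset.mem_filter, not_exists] at hu
      exact hu i h0
    refine ⟨hu', ?_, σ, g1, g2, ?_⟩
    · intro j
      simp only [F]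
      rw [Finset.sum_comm]
      apply Finset.sum_eq_zero
      intro l _
      rw [← Finset.sum_mul, ← Int.cast_sum, g6 j l]
      simp
    · intro i
      simp only [F]
      rw [← Finset.sum_neg_distrib]
      apply Finset.sum_congr rfl
      intro l _
      rw [g3 i l]
      push_cast
      ring
  have hsum : (∑ i : Fin k, (bad i).card) * m ≤ k * m ^ d' := by
    rw [Finset.sum_mul]
    calc ∑ i : Fin k, (bad i).card * m ≤ ∑ i : Fin k, m ^ d' := Finset.sum_le_sum (fun i _ => hbad i)
      _ = k * m ^ d' := by simp
  calc m ^ (d' + 1) = m * m ^ d' := by ring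
    _ ≤ m * (good.card + ∑ i, (bad i).card) := Nat.mul_le_mul_left _ hgood
    _ = m * good.card + (∑ i, (bad i).card) * m := by ring
    _ ≤ _ := Nat.add_le_add (Nat.mul_le_mul_left _ himg) hsum

end Pool.Agent.helper76.FV
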